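import Pool.Agent.H48.HMS.Stm

/-!
# HMS: removing duplicates (module DDP)
-/

set_option autoImplicit false

namespace Pool.HMS

open TMLib Finset Polynomial

namespace DDPaux

lemma sz_sublist {α : Type} [Enc α] {l l' : List α} (h : l.Sublist l') : sz l ≤ sz l' := by
  induction h with
  | slnil => exact le_rfl
  | cons a h ih => simp only [sz_cons]; omega
  | cons_cons a h ih => simp only [sz_cons]; omega

lemma inv {α : Type} [DecidableEq α] (l : List α) : ∀ acc : List α, acc.Nodup →
    (l.foldl (fun acc a => if a ∈ acc then acc else acc ++ [a]) acc).Nodup ∧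
    (∀ a, a ∈ l.foldl (fun acc a => if a ∈ acc then acc else acc ++ [a]) acc ↔ a ∈ acc ∨ a ∈ l) ∧
    (l.foldl (fun acc a => if a ∈ acc then acc else acc ++ [a]) acc).Sublist (acc ++ l) := by
  induction l with
  | nil => intro acc h; simp [h]
  | cons b l ih =>
    intro acc h
    rw [List.foldl_cons]
    by_cases hb : b ∈ acc
    · rw [if_pos hb]
      obtain ⟨h1, h2, h3⟩ := ih acc h
      refine ⟨h1, fun a => ?_, h3.trans ?_⟩
      · rw [h2]
        constructor
        · rintro (h | h)
          · exact Or.inl h
          · exact Or.inr (List.mem_cons_of_mem _ h)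
        · rintro (h | h)
          · exact Or.inl h
          · rcases List.mem_cons.1 h with rfl | h
            · exact Or.inl hb
            · exact Or.inr h
      · exact (List.Sublist.refl acc).append (List.sublist_cons_self b l)
    · rw [if_neg hb]
      have hn : (acc ++ [b]).Nodup := by
        rw [List.nodup_append]
        refine ⟨h, List.nodup_singleton b, ?_⟩
        intro x hx y hy
        rw [List.mem_singleton] at hy
        rintro rfl
        exact hb (hy ▸ hx)
      obtain ⟨h1, h2, h3⟩ := ih _ hn
      refine ⟨h1, fun a => ?_, ?_⟩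
      · rw [h2, List.mem_append, List.mem_singleton, List.mem_cons, or_assoc]
      · rwa [List.append_assoc, List.singleton_append] at h3

end DDPaux

open DDPaux in
theorem ddp_thm : S_DDP := by
  intro α _
  refine ⟨fun l => ?_, ?_⟩
  · obtain ⟨h1, h2, -⟩ := inv l [] List.nodup_nil
    have h2' : ∀ a, a ∈ ddp l ↔ a ∈ l := fun a => by
      unfold ddp
      rw [h2]
      simp
    refine ⟨h1, h2', ?_⟩
    have h3 : (ddp l).toFinset = l.toFinset := by
      ext a
      rw [List.mem_toFinset, List.mem_toFinset, h2']
    have h4 : (ddp l).Nodup := h1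
    rw [← h3, List.toFinset_card_of_nodup h4]
  · intro β _ _ _ f hf
    unfold ddp
    refine PTime.foldl (f := fun _ acc a => if a ∈ acc then acc else acc ++ [a])
      (init := fun _ => ([] : List α)) (l := f) (by fun_prop) (by fun_prop) hf
      (h := fun x => sz (f x)) hf.pb ?_
    intro x l' hl'
    obtain ⟨-, -, h3⟩ := inv l' [] List.nodup_nil
    rw [List.nil_append] at h3
    exact (sz_sublist h3).trans (sz_le_of_prefix hl')

end Pool.HMS
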