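import Pool.Agent.H48.HMS.Stm

/-!
# HMS: parsing the input (module PARSE)
-/

set_option autoImplicit false

namespace Pool.HMS

open TMLib Finset Polynomial

namespace PARSEaux

/-- one step of the splitting at `none`: the current block and the finished blocks -/
def st (s : List Bool × List (List Bool)) (o : Option Bool) : List Bool × List (List Bool) :=
  if o = none then ([], s.2 ++ [s.1]) else (s.1 ++ o.toList, s.2)

/-- one step of the pairing -/
def pt (s : Option (List Bool) × List (List Bool × List Bool)) (b : List Bool) :
    Option (List Bool) × List (List Bool × List Bool) :=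
  if s.1 = none then (some b, s.2) else (none, s.2 ++ [(s.1.getD [], b)])

/-- the blocks -/
def bl (L : List (Option Bool)) : List (List Bool) := (L.foldl st ([], [])).2

/-- the pairs -/
def prs (B : List (List Bool)) : List (List Bool × List Bool) := (B.foldl pt (none, [])).2

/-- the parser -/
def par (L : List (Option Bool)) : List Bool × List Bool × List (List Bool × List Bool) :=
  ((bl L).getD 0 [], (bl L).getD 1 [], prs ((bl L).drop 2))

lemma st_none (s : List Bool × List (List Bool)) : st s none = ([], s.2 ++ [s.1]) := rfl

lemma st_some (s : List Bool × List (List Bool)) (b : Bool) : st s (some b) = (s.1 ++ [b], s.2) := rfl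

lemma st_map (w : List Bool) : ∀ (c : List Bool) (B : List (List Bool)),
    (w.map some).foldl st (c, B) = (c ++ w, B) := by
  induction w with
  | nil => intro c B; simp
  | cons b w ih =>
    intro c B
    rw [List.map_cons, List.foldl_cons, st_some, ih]
    simp

lemma st_flat (l : List (ℕ × ℕ)) : ∀ B : List (List Bool),
    (l.flatMap (fun q : ℕ × ℕ => List.map some (Nat.bits q.1) ++
      ([none] : List (Option Bool)) ++ List.map some (Nat.bits q.2) ++
      ([none] : List (Option Bool)))).foldl st ([], B) =
    ([], B ++ l.flatMap fun q => [Nat.bits q.1, Nat.bits q.2]) := by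
  induction l with
  | nil => intro B; simp
  | cons q l ih =>
    intro B
    rw [List.flatMap_cons, List.foldl_append, List.foldl_append, List.foldl_append,
      List.foldl_append, st_map, List.foldl_cons, List.foldl_nil, st_none, st_map,
      List.foldl_cons, List.foldl_nil, st_none, ih]
    simp

lemma bl_inp (m T : ℕ) (l : List (ℕ × ℕ)) : bl (inp m T l) =
    Nat.bits m :: Nat.bits T :: l.flatMap fun q => [Nat.bits q.1, Nat.bits q.2] := by
  unfold bl inp
  rw [List.foldl_append, List.foldl_append, List.foldl_append, List.foldl_append, st_map,
    List.foldl_cons, List.foldl_nil, st_none, st_map, List.foldl_cons, List.foldl_nil, st_none,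
    st_flat]
  simp

lemma pt_flat (l : List (ℕ × ℕ)) : ∀ P : List (List Bool × List Bool),
    (l.flatMap fun q => [Nat.bits q.1, Nat.bits q.2]).foldl pt (none, P) =
      (none, P ++ l.map fun q => (Nat.bits q.1, Nat.bits q.2)) := by
  induction l with
  | nil => intro P; simp
  | cons q l ih =>
    intro P
    rw [List.flatMap_cons, List.foldl_append, List.foldl_cons, List.foldl_cons, List.foldl_nil]
    have e : pt (pt (none, P) (Nat.bits q.1)) (Nat.bits q.2) =
      (none, P ++ [(Nat.bits q.1, Nat.bits q.2)]) := rfl
    rw [e, ih]
    simp

lemma ptime_st : PTime (fun p : (List Bool × List (List Bool)) × Option Bool => st p.1 p.2) := by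
  unfold st
  fun_prop

lemma ptime_pt : PTime (fun p : (Option (List Bool) × List (List Bool × List Bool)) × List Bool =>
    pt p.1 p.2) := by
  unfold pt
  fun_prop

lemma sz_st (s : List Bool × List (List Bool)) (o : Option Bool) : sz (st s o) ≤ sz s + 4 := by
  cases o with
  | none =>
    rw [st_none]
    have h := sz_append s.2 [s.1]
    simp only [sz_pair, sz_nil, sz_cons] at h ⊢
    omega
  | some b =>
    rw [st_some]
    have h := sz_append s.1 [b]
    have hb := sz_bool_le b
    simp only [sz_pair, sz_nil, sz_cons] at h ⊢
    omega

lemma sz_st_fold (L : List (Option Bool)) : ∀ s : List Bool × List (List Bool),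
    sz (L.foldl st s) ≤ sz s + 4 * L.length := by
  induction L with
  | nil => intro s; simp
  | cons o L ih =>
    intro s
    rw [List.foldl_cons, List.length_cons]
    have h1 := ih (st s o)
    have h2 := sz_st s o
    omega

lemma sz_pt (s : Option (List Bool) × List (List Bool × List Bool)) (b : List Bool) :
    sz (pt s b) ≤ sz s + (1 + sz b) := by
  obtain ⟨o, P⟩ := s
  cases o with
  | none =>
    have e : pt (none, P) b = (some b, P) := rfl
    rw [e]
    simp only [sz_pair, sz_none, sz_some]
    omega
  | some c =>
    have e : pt (some c, P) b = (none, P ++ [(c, b)]) := rfl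
    rw [e]
    have h := sz_append P [(c, b)]
    simp only [sz_pair, sz_none, sz_some, sz_nil, sz_cons] at h ⊢
    omega

lemma sz_pt_fold (L : List (List Bool)) : ∀ s : Option (List Bool) × List (List Bool × List Bool),
    sz (L.foldl pt s) + 1 ≤ sz s + sz L := by
  induction L with
  | nil => intro s; simp
  | cons b L ih =>
    intro s
    rw [List.foldl_cons, sz_cons]
    have h1 := ih (pt s b)
    have h2 := sz_pt s b
    omega

lemma ptime_bl : PTime bl := by
  unfold bl
  refine PTime.snd (PTime.foldl (f := fun (_ : List (Option Bool)) s o => st s o)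
    (init := fun _ => (([] : List Bool), ([] : List (List Bool)))) (l := fun L => L)
    (ptime_st.comp (f := fun p : List (Option Bool) × (List Bool × List (List Bool)) × Option Bool =>
      (p.2.1, p.2.2)) (by fun_prop)) (by fun_prop) (by fun_prop)
    (h := fun L => 3 + 4 * sz L) ((PB.const 3).add ((PB.const 4).mul PB.sz_self)) ?_)
  intro L L' h
  have h1 := sz_st_fold L' ([], [])
  have h2 := length_lt_sz L'
  have h3 := sz_le_of_prefix h
  have h4 : sz (([] : List Bool), ([] : List (List Bool))) = 3 := rfl
  show sz (L'.foldl st ([], [])) ≤ _
  omega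

lemma ptime_prs : PTime prs := by
  unfold prs
  refine PTime.snd (PTime.foldl (f := fun (_ : List (List Bool)) s o => pt s o)
    (init := fun _ => ((none : Option (List Bool)), ([] : List (List Bool × List Bool))))
    (l := fun L => L)
    (ptime_pt.comp (f := fun p : List (List Bool) ×
      (Option (List Bool) × List (List Bool × List Bool)) × List Bool =>
      (p.2.1, p.2.2)) (by fun_prop)) (by fun_prop) (by fun_prop)
    (h := fun L => 3 + sz L) ((PB.const 3).add PB.sz_self) ?_)
  intro L L' h
  have h1 := sz_pt_fold L' (none, [])
  have h3 := sz_le_of_prefix h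
  have h4 : sz ((none : Option (List Bool)), ([] : List (List Bool × List Bool))) = 3 := rfl
  show sz (L'.foldl pt (none, [])) ≤ _
  omega

lemma ptime_par : PTime par := by
  have h1 : PTime bl := ptime_bl
  have h2 : PTime (fun L => prs ((bl L).drop 2)) :=
    ptime_prs.comp (f := fun L => (bl L).drop 2) (by fun_prop)
  unfold par
  fun_prop

end PARSEaux

open PARSEaux in
theorem parse_thm : S_PARSE := by
  refine ⟨par, ptime_par, fun m T l => ?_⟩
  unfold par prs
  rw [bl_inp]
  simp only [List.getD_cons_zero, List.getD_cons_succ, List.drop_succ_cons, List.drop_zero,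
    pt_flat, List.nil_append]

end Pool.HMS
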