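import Pool.Agent.H76.HMS.ExStmts

/-!
# HMS, box 3: pullback of oracles and of convex sets (module EOR)
-/

set_option autoImplicit false

namespace Pool.HMS

open TMLib Finset

theorem eor_thm (h_EAP : S_EAP) : S_EOR := by
  obtain ⟨h1, h2, -, h4, -, -, -, -, -⟩ := h_EAP
  refine ⟨?_, ?_⟩
  · intro α O a D e N K hO q hq
    have hl := h2 D e N q
    obtain ⟨ho1, ho2⟩ := hO (app D e N q) hl
    have hp : preO O (a, D, N) q = (O a (app D e N q)).map (pull D e N) := by
      unfold preO
      rw [hq]
    have hs : Supp e (fn q) := by
      intro i hi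
      unfold fn
      rw [List.getD_eq_getElem?_getD, List.getElem?_eq_none (by omega)]
      rfl
    rw [hp]
    refine ⟨fun h => ?_, fun s h => ?_⟩
    · rw [Option.map_eq_none_iff] at h
      refine ⟨hs, ?_⟩
      rw [← h1]
      exact ho1 h
    · rw [Option.map_eq_some_iff] at h
      obtain ⟨s', hs', rfl⟩ := h
      obtain ⟨h5, h6⟩ := ho2 s' hs'
      refine ⟨fun x hx => ?_, ?_⟩
      · rw [h4]
        exact h5 _ hx.2
      · rw [h4, ← h1]
        exact h6
  · intro D e N K hK x hx y hy a b ha hb hab
    refine ⟨fun i hi => ?_, ?_⟩
    · have hx1 := hx.1 i hi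
      have hy1 := hy.1 i hi
      simp [hx1, hy1]
    · have e1 : appF D e N (a • x + b • y) = a • appF D e N x + b • appF D e N y := by
        funext i
        simp only [appF, Pi.add_apply, Pi.smul_apply, smul_eq_mul]
        split_ifs with hi
        · rw [mul_add, mul_add, Finset.mul_sum, Finset.mul_sum]
          have e2 : ∑ c ∈ range e, ent N i (c + 1) * (a * x c + b * y c) =
              ∑ c ∈ range e, a * (ent N i (c + 1) * x c) +
                ∑ c ∈ range e, b * (ent N i (c + 1) * y c) := by
            rw [← Finset.sum_add_distrib]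
            exact Finset.sum_congr rfl fun c _ => by ring
          rw [e2]
          have e3 : ent N i 0 = a * ent N i 0 + b * ent N i 0 := by
            rw [← add_mul, hab, one_mul]
          linarith
        · simp
      rw [e1]
      exact hK hx.2 hy.2 ha hb hab

end Pool.HMS
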