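import Pool.Agent.H91.HMS.RLib

/-!
# HMS box 2: the invariants along the loop (module RLOOP)
-/

set_option autoImplicit false

namespace Pool.HMS

open TMLib Finset

theorem rloop_thm (h_RMAX : S_RMAX) (h_RNUM : S_RNUM) (h_RPROD : S_RPROD) (h_RVALID : S_RVALID)
    (h_RCUT : S_RCUT) (h_RDET : S_RDET) (h_RINIT : S_RINIT) : S_RLOOP := by
  intro D B K O hD hB hB2 hK hbox hO t
  have hsup : ∀ x ∈ K, Supp D x := fun x hx => (hbox x hx).1
  have hD0 : (0 : ℚ) < D := by exact_mod_cast hD
  have hB0 : (0 : ℚ) < B := by linarith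
  induction t with
  | zero =>
    obtain ⟨h1, h2⟩ := h_RINIT D B K hD hB hB2 hbox
    refine ⟨h1, Or.inr ?_⟩
    rw [Function.iterate_zero, id, h2, pow_zero, one_mul]
  | succ t ih =>
    rw [Function.iterate_succ_apply']
    set st := (rStep D O)^[t] (rInit D B) with hst
    obtain ⟨hI, halt⟩ := ih
    rcases hf : rFind D O st.1 with _ | s
    · have e : rStep D O st = st := by
        unfold rStep
        rw [hf]
      rw [e]
      refine ⟨hI, Or.inl fun b hb => ?_⟩
      have h1 : O (rShr D st.1 b) = none := by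
        unfold rFind at hf
        rw [List.head?_eq_none_iff, List.filterMap_eq_nil_iff] at hf
        exact hf b (List.mem_range.2 (by omega))
      exact (hO _ (length_tab _ _)).1 h1
    · have e : rStep D O st = rCut D (rMax D s st.1) (rNum D s st.1) st := by
        unfold rStep
        rw [hf]
      rw [e]
      have h1 : ∃ b ≤ D, O (rShr D st.1 b) = some s := by
        unfold rFind at hf
        have h2 := List.mem_of_head? hf
        rw [List.mem_filterMap] at h2
        obtain ⟨b, hb, hb2⟩ := h2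
        exact ⟨b, by have := List.mem_range.1 hb; omega, hb2⟩
      obtain ⟨b, hb, hOb⟩ := h1
      obtain ⟨hs1, hs2⟩ := (hO _ (length_tab _ _)).2 s hOb
      obtain ⟨hm1, -⟩ := h_RMAX D s st.1
      have hn := h_RNUM.1 D s st.1
      have hn2 := h_RNUM.2 D s st.1 b hD hb hs2
      have hv := h_RVALID D K s st hD hI hsup hs1
      refine ⟨h_RCUT D _ K _ st hD hm1 hI (fun j _ => (hn j).1) (fun j hj => (hn j).2.2 hj) hv,
        Or.inr ?_⟩
      rcases halt with halt | halt
      · exact absurd (hs1 _ (halt b hb)) (not_le.2 hs2)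
      · rw [h_RDET D _ K _ st hD hm1 hI, pow_succ]
        have hp := h_RPROD D (rMax D s st.1) (rNum D s st.1) hD hm1
          (fun j hj => ⟨(hn j).2.1, (hn j).2.2 hj⟩) hn2
        have h0 : 0 ≤ (1 + 1 / (16 * (D : ℚ) ^ 2)) ^ t * (1 / (2 * D * B)) ^ D := by positivity
        have h3 : (0 : ℚ) ≤ 1 + 1 / (16 * (D : ℚ) ^ 2) := by positivity
        calc (1 + 1 / (16 * (D : ℚ) ^ 2)) ^ t * (1 + 1 / (16 * (D : ℚ) ^ 2)) *
              (1 / (2 * D * B)) ^ D
            = (1 + 1 / (16 * (D : ℚ) ^ 2)) *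
              ((1 + 1 / (16 * (D : ℚ) ^ 2)) ^ t * (1 / (2 * D * B)) ^ D) := by ring
          _ ≤ _ := mul_le_mul hp halt h0 (h3.trans hp)

end Pool.HMS
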